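import Pool.Agent.TH57.TT2.PL4

set_option autoImplicit false

/-! Projective modules over a group ring without zero divisors of a principal ideal domain which have
a presentation in which, in each block, all relations but one (or all generators but one) have at
most two nonzero coefficients, are stably free. -/

namespace Pool.Agent.Results.MP_28303a_al.OneLongRelationPID

open TH57.Thr TH57.TT2

/-- `R` is a principal ideal domain, `RG` has no zero divisors and `P` is a projective `RG`-module
presented by the `m × n` matrix `A`. The rows (relations) and the columns (generators) are coloured so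
that a nonzero entry is in a row and a column of the same colour. Of any two different rows of the
same colour one has at most two nonzero coefficients, or: of any two different columns of the same
colour one has at most two nonzero coefficients. Then `P` is stably free. -/
theorem result (R : Type) [CommRing R] [IsDomain R] [IsPrincipalIdealRing R] (G : Type) [Group G]
    (hdom : NoZeroDivisors (MonoidAlgebra R G))
    (P : Type) [AddCommGroup P] [Module (MonoidAlgebra R G) P]
    (hP : Module.Projective (MonoidAlgebra R G) P)
    (m n : ℕ) (A : Matrix (Fin m) (Fin n) (MonoidAlgebra R G))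
    (e : P ≃ₗ[MonoidAlgebra R G]
      ((Fin n → MonoidAlgebra R G) ⧸ LinearMap.range A.vecMulLinear))
    (c : Fin m → ℕ) (d : Fin n → ℕ) (hcd : ∀ i j, A i j ≠ 0 → c i = d j)
    (hA : (∀ i i', i ≠ i' → c i = c i' →
        ∑ j, (A i j).coeff.support.card ≤ 2 ∨ ∑ j, (A i' j).coeff.support.card ≤ 2) ∨
      (∀ j j', j ≠ j' → d j = d j' →
        ∑ i, (A i j).coeff.support.card ≤ 2 ∨ ∑ i, (A i j').coeff.support.card ≤ 2)) :
    ∃ k l : ℕ, Nonempty ((P × (Fin k → MonoidAlgebra R G)) ≃ₗ[MonoidAlgebra R G]
      (Fin l → MonoidAlgebra R G)) := by
  obtain ⟨Y, hY⟩ := regular_of_projective A P hP e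
  have htf' : ∀ g : G, ∀ k : ℕ, 0 < k → g ^ k = 1 → g = 1 := fun g k hk h =>
    PL.torsionFree_of_domain (R := R) g k hk h
  rcases hA with hA | hA
  · refine free_of_SFC A (PL.SFC_long htf' A Y hY c d hcd fun i i' hii h1 h2 => ?_) P e
    by_contra hne
    rcases hA i i' hne hii with h | h
    · exact absurd h (not_le.2 h1)
    · exact absurd h (not_le.2 h2)
  · refine free_of_SFC A (PL.SFC_long_col htf' A Y hY c d hcd fun i i' hii h1 h2 => ?_) P e
    by_contra hne
    rcases hA i i' hne hii with h | h
    · exact absurd h (not_le.2 h1)
    · exact absurd h (not_le.2 h2)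

end Pool.Agent.Results.MP_28303a_al.OneLongRelationPID
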