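import Pool.Agent.TH6.PF.KSt

set_option autoImplicit false

/-! For every ring `R`, every group `G` and every `k`, every finitely presented module over
`R[G × ℤ^k]` has a presentation matrix whose support pattern has operator norm as close to `3 / √2`
as one likes. -/

namespace Pool.Agent.Results.MP_28303a_al.ThinPresentations

open TH57.Thr TH6.PF Matrix

theorem result (R : Type) [Ring R] (G : Type) [Group G] (k : ℕ) (c : ℝ) (hc : 9 / 2 < c ^ 2)
    (P : Type) [AddCommGroup P] [Module (MonoidAlgebra R (GZ G k)) P]
    (hP : Module.FinitePresentation (MonoidAlgebra R (GZ G k)) P) :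
    ∃ (m n : ℕ) (A : Matrix (Fin m) (Fin n) (MonoidAlgebra R (GZ G k))),
      ThinLE A c ∧ Nonempty (P ≃ₗ[MonoidAlgebra R (GZ G k)] Coker A) :=
  thin_pres P hP c hc

end Pool.Agent.Results.MP_28303a_al.ThinPresentations
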